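import Pool.Agent.H678R3.BSD.Glob

/-!
# Moments of the truncated Euler product at the central point in families

For the cubic `P = t³ + a t² + b t + c` with `P(0) = V`, `P(1) = W` (so `c = V`,
`b = W - 1 - a - V`) the families are: `(V, W) = (v, w)` (`j = 0`), `(v², w)` (`j = 1`) and
`(v², w²)` (`j = 2`), with parameters `n = (a, v, w)`; the curve `y² = P(t)` has `j` marked
integral points `(0, v)`, `(1, w)`.  `(FP j n x)⁻¹` is the Euler product of its `L`-series at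
`s = 1` over the good primes `p ≤ x`: the factor at `p` is
`(1 - a_p / p + 1 / p)⁻¹ = p / #C(F_p)`.

All real moments of it over the cube `[1, H]³`, `H ≥ ∏_{p ≤ x} p`, with the exact order of
magnitude, and the concentration which follows.
-/

set_option autoImplicit false

open Finset Pool.Agent.H678R3.BSD

namespace Pool.Agent.Results.MP_9c97e9_nt.FamilyMoments

open Classical in
theorem result (j : ℕ) (hj : j ≤ 2) :
    (∀ k : ℝ, ∃ c C : ℝ, 0 < c ∧ 0 < C ∧ ∀ x : ℕ, 2 ≤ x → ∀ H : ℕ, primorial x ≤ H →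
      c * Real.log x ^ (k * (k - 1) / 2 - j * k) * (H : ℝ) ^ 3 ≤
        ∑ n ∈ boxH H, (FP j n x)⁻¹ ^ k ∧
      ∑ n ∈ boxH H, (FP j n x)⁻¹ ^ k ≤
        C * Real.log x ^ (k * (k - 1) / 2 - j * k) * (H : ℝ) ^ 3) ∧
    (∀ ε : ℝ, 0 < ε → ∃ C : ℝ, ∀ x : ℕ, 2 ≤ x → ∀ H : ℕ, primorial x ≤ H →
      (((boxH H).filter fun n => ¬ (Real.log x ^ (-((j : ℝ) + 1 / 2 + ε)) ≤ (FP j n x)⁻¹ ∧
        (FP j n x)⁻¹ ≤ Real.log x ^ (-((j : ℝ) + 1 / 2 - ε)))).card : ℝ) ≤
        C * Real.log x ^ (-(ε ^ 2 / 2)) * (H : ℝ) ^ 3) := by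
  constructor
  · intro k
    obtain ⟨c, C, hc, hC, h⟩ := moments j hj (-k)
    refine ⟨c, C, hc, hC, fun x hx H hH => ?_⟩
    have e1 : kap j (-k) = k * (k - 1) / 2 - j * k := by unfold kap; ring
    have e2 : ∀ n, (FP j n x)⁻¹ ^ k = FP j n x ^ (-k) := fun n => by
      rw [Real.inv_rpow (FP_pos j n x).le, Real.rpow_neg (FP_pos j n x).le]
    rw [← e1]
    simp_rw [e2]
    exact h x hx H hH
  · intro ε hε
    obtain ⟨C, h⟩ := concentration j hj ε hε
    refine ⟨C, fun x hx H hH => ?_⟩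
    have hx' : (2 : ℝ) ≤ x := by exact_mod_cast hx
    have hlog : 0 < Real.log x := Real.log_pos (by linarith)
    refine le_trans (le_of_eq ?_) (h x hx H hH)
    congr 2
    ext n
    simp only [Finset.mem_filter]
    have hF := FP_pos j n x
    have a1 : (Real.log x ^ (-((j : ℝ) + 1 / 2 + ε)) ≤ (FP j n x)⁻¹) ↔
        FP j n x ≤ Real.log x ^ ((j : ℝ) + 1 / 2 + ε) := by
      rw [Real.rpow_neg hlog.le]
      exact inv_le_inv₀ (Real.rpow_pos_of_pos hlog _) hF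
    have a2 : ((FP j n x)⁻¹ ≤ Real.log x ^ (-((j : ℝ) + 1 / 2 - ε))) ↔
        Real.log x ^ ((j : ℝ) + 1 / 2 - ε) ≤ FP j n x := by
      rw [Real.rpow_neg hlog.le]
      exact inv_le_inv₀ hF (Real.rpow_pos_of_pos hlog _)
    rw [a1, a2, and_comm (a := FP j n x ≤ _)]

end Pool.Agent.Results.MP_9c97e9_nt.FamilyMoments
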